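import Mathlib

set_option autoImplicit false

namespace Pool.Agent.Results.MP_648063_co.NuRegular

open Finset

/-- The edge set of the tree-cycle of a non-tree edge `e = xy` with respect to a tree `T`: the
edge `e` together with the edges of the path of `T` from `x` to `y`. -/
def treeCycle {V : Type} (T : SimpleGraph V) (e : Sym2 V) : Set (Sym2 V) :=
  {f | f = e ∨ ∃ (x y : V) (p : T.Walk x y), e = s(x, y) ∧ p.IsPath ∧ f ∈ p.edges}

/-- The graph whose edges are the unordered pairs of distinct non-tree edges whose tree-cycles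
have an edge in common. -/
def crossGraph {V : Type} (G T : SimpleGraph V) : SimpleGraph (Sym2 V) where
  Adj e e' := e ≠ e' ∧ e ∈ G.edgeSet \ T.edgeSet ∧ e' ∈ G.edgeSet \ T.edgeSet ∧
    (treeCycle T e ∩ treeCycle T e').Nonempty
  symm := ⟨fun e e' h => ⟨h.1.symm, h.2.2.1, h.2.1, by rw [Set.inter_comm]; exact h.2.2.2⟩⟩
  loopless := ⟨fun _ h => h.1 rfl⟩

/-- The number of unordered pairs of distinct tree-cycles of `T` having an edge in common. -/
noncomputable def interTree {V : Type} (G T : SimpleGraph V) : ℕ :=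
  (crossGraph G T).edgeSet.ncard

/-- The intersection number: the minimum of `interTree G T` over the spanning trees `T`. -/
noncomputable def inter {V : Type} (G : SimpleGraph V) : ℕ :=
  sInf {k | ∃ T : SimpleGraph V, T ≤ G ∧ T.IsTree ∧ interTree G T = k}

/-- The cyclomatic number `ν = m - n + 1` (for a connected graph). -/
noncomputable def cyclo {V : Type} [Fintype V] (G : SimpleGraph V) : ℕ :=
  G.edgeSet.ncard + 1 - Fintype.card V

/-- `G` is `ν`-regular: there is a universal vertex `u`, and every other vertex has degree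
`q + 1` or `q + 2`, where `q` is the integer quotient of `2ν` by `n - 1`. -/
def IsNuRegular {V : Type} [Fintype V] (G : SimpleGraph V) : Prop :=
  ∃ u : V, (∀ v, v ≠ u → G.Adj u v) ∧ ∀ v, v ≠ u →
    ((G.neighborSet v).ncard = 2 * cyclo G / (Fintype.card V - 1) + 1 ∨
      (G.neighborSet v).ncard = 2 * cyclo G / (Fintype.card V - 1) + 2)

/-- Twice the number of edges is the number of ordered adjacent pairs. -/
theorem two_mul_edges {X : Type} [Fintype X] (K : SimpleGraph X) [DecidableRel K.Adj] :
    2 * K.edgeSet.ncard = (univ.filter fun p : X × X => K.Adj p.1 p.2).card := by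
  classical
  have h1 : K.edgeSet.ncard = K.edgeFinset.card := by
    rw [← SimpleGraph.coe_edgeFinset, Set.ncard_coe_finset]
  rw [h1, ← K.sum_degrees_eq_twice_card_edges, Finset.card_filter, Fintype.sum_prod_type]
  apply Finset.sum_congr rfl
  intro v _
  rw [← SimpleGraph.card_neighborFinset_eq_degree, SimpleGraph.neighborFinset_eq_filter,
    Finset.card_filter]

/-- `A` is the set of end edges of the tree path between the ends of `e`. -/
def Good {V : Type} (T : SimpleGraph V) (e : Sym2 V) (x y x1 y1 : V) : Prop :=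
  e = s(x, y) ∧ T.Adj x x1 ∧ T.Adj y y1 ∧ T.dist x1 y + 1 = T.dist x y ∧
    T.dist x y1 + 1 = T.dist x y ∧ T.dist x1 y1 + 2 = T.dist x y ∧
    s(x, x1) ∈ treeCycle T e ∧ s(y, y1) ∈ treeCycle T e

theorem exists_good {V : Type} (T : SimpleGraph V) (hT : T.Connected) (x y : V) (hxy : x ≠ y)
    (hadj : ¬ T.Adj x y) : ∃ x1 y1, Good T s(x, y) x y x1 y1 := by
  obtain ⟨p, hp, hlen⟩ := hT.exists_path_of_dist x y
  have hd : 1 < T.dist x y := hT.one_lt_dist_of_ne_of_not_adj hxy hadj
  -- split first edge
  cases p with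
  | nil => exact absurd rfl hxy
  | @cons _ x1 _ h q =>
    have hq : q.length + 1 = T.dist x y := by
      rw [← hlen, SimpleGraph.Walk.length_cons]
    obtain ⟨y1, r, h', hr⟩ : ∃ (y1 : V) (r : T.Walk x1 y1) (h' : T.Adj y1 y),
        q = r.concat h' := by
      have hne : ¬ q.Nil := by
        intro hnil
        have := SimpleGraph.Walk.length_eq_zero_iff.2 hnil
        omega
      cases q with
      | nil => exact absurd SimpleGraph.Walk.Nil.nil hne
      | cons h2 q2 =>
        obtain ⟨z, r, h', hr⟩ := SimpleGraph.Walk.exists_cons_eq_concat h2 q2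
        exact ⟨z, r, h', hr⟩
    have hrl : r.length + 1 = q.length := by
      rw [hr, SimpleGraph.Walk.length_concat]
    have h1 : T.dist x1 y ≤ q.length := SimpleGraph.dist_le q
    have h2 : T.dist x1 y1 ≤ r.length := SimpleGraph.dist_le r
    have h3 : T.dist x y1 ≤ r.length + 1 := by
      have := SimpleGraph.dist_le (SimpleGraph.Walk.cons h r)
      rwa [SimpleGraph.Walk.length_cons] at this
    have a1 : T.dist x x1 = 1 := SimpleGraph.dist_eq_one_iff_adj.2 h
    have a2 : T.dist y1 y = 1 := SimpleGraph.dist_eq_one_iff_adj.2 h'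
    have t1 : T.dist x y ≤ T.dist x x1 + T.dist x1 y := hT.dist_triangle
    have t2 : T.dist x y ≤ T.dist x y1 + T.dist y1 y := hT.dist_triangle
    have t3 : T.dist x1 y ≤ T.dist x1 y1 + T.dist y1 y := hT.dist_triangle
    refine ⟨x1, y1, rfl, h, h'.symm, by omega, by omega, by omega, ?_, ?_⟩
    · refine Or.inr ⟨x, y, SimpleGraph.Walk.cons h q, rfl, hp, ?_⟩
      simp
    · refine Or.inr ⟨x, y, SimpleGraph.Walk.cons h q, rfl, hp, ?_⟩
      rw [hr, SimpleGraph.Walk.edges_cons, SimpleGraph.Walk.edges_concat]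
      rw [Sym2.eq_swap]
      simp

theorem good_swap {V : Type} {T : SimpleGraph V} {e : Sym2 V} {x y x1 y1 : V}
    (h : Good T e x y x1 y1) : Good T e y x y1 x1 := by
  obtain ⟨h1, h2, h3, h4, h5, h6, h7, h8⟩ := h
  refine ⟨by rw [h1, Sym2.eq_swap], h3, h2, ?_, ?_, ?_, h8, h7⟩
  · rw [SimpleGraph.dist_comm, h5, SimpleGraph.dist_comm]
  · rw [SimpleGraph.dist_comm, h4, SimpleGraph.dist_comm]
  · rw [SimpleGraph.dist_comm, h6, SimpleGraph.dist_comm]

theorem good_ne {V : Type} {T : SimpleGraph V} {e : Sym2 V} {x y x1 y1 : V}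
    (h : Good T e x y x1 y1) : s(x, x1) ≠ s(y, y1) := by
  obtain ⟨h1, h2, h3, h4, h5, h6, h7, h8⟩ := h
  intro he
  rcases Sym2.eq_iff.1 he with ⟨hx, -⟩ | ⟨hx, -⟩
  · subst hx
    rw [SimpleGraph.dist_self] at h4
    omega
  · subst hx
    rw [SimpleGraph.dist_self] at h5
    omega

theorem good_aligned {V : Type} {T : SimpleGraph V} {e e' : Sym2 V} {x y x1 y1 x' y' x1' y1' : V}
    (h : Good T e x y x1 y1) (h' : Good T e' x' y' x1' y1')
    (ha : s(x, x1) = s(x', x1')) (hb : s(y, y1) = s(y', y1')) : e = e' := by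
  obtain ⟨h1, h2, h3, h4, h5, h6, h7, h8⟩ := h
  obtain ⟨k1, k2, k3, k4, k5, k6, k7, k8⟩ := h'
  rcases Sym2.eq_iff.1 ha with ⟨a1, a2⟩ | ⟨a1, a2⟩ <;>
    rcases Sym2.eq_iff.1 hb with ⟨b1, b2⟩ | ⟨b1, b2⟩ <;> subst a1 a2 b1 b2
  · rw [h1, k1]
  · exfalso; omega
  · exfalso; omega
  · exfalso; omega

theorem good_unique {V : Type} {T : SimpleGraph V} {e e' : Sym2 V}
    {x y x1 y1 x' y' x1' y1' : V} [DecidableEq V]
    (h : Good T e x y x1 y1) (h' : Good T e' x' y' x1' y1')
    (hA : ({s(x, x1), s(y, y1)} : Finset (Sym2 V)) = {s(x', x1'), s(y', y1')}) : e = e' := by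
  have m1 : s(x, x1) ∈ ({s(x', x1'), s(y', y1')} : Finset (Sym2 V)) := by rw [← hA]; simp
  have m2 : s(y, y1) ∈ ({s(x', x1'), s(y', y1')} : Finset (Sym2 V)) := by rw [← hA]; simp
  rw [Finset.mem_insert, Finset.mem_singleton] at m1 m2
  have hne := good_ne h
  rcases m1 with m1 | m1 <;> rcases m2 with m2 | m2
  · exact absurd (m1.trans m2.symm) hne
  · exact good_aligned h h' m1 m2
  · exact good_aligned h (good_swap h') m1 m2
  · exact absurd (m1.trans m2.symm) hne

/-- The main inequality for a spanning tree. -/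
theorem lower {V : Type} [Fintype V] (G T : SimpleGraph V) (hT : T.IsTree) (hTG : T ≤ G)
    (q : ℕ) :
    4 * (q : ℤ) * ((G.edgeSet.ncard : ℤ) + 1 - (Fintype.card V : ℤ)) -
      (q : ℤ) * (q + 1) * ((Fintype.card V : ℤ) - 1) ≤ 2 * (interTree G T : ℤ) := by
  classical
  set N : Finset (Sym2 V) := G.edgeFinset \ T.edgeFinset with hN
  set E : Finset (Sym2 V) := T.edgeFinset with hE
  have hEcard : E.card + 1 = Fintype.card V := hT.card_edgeFinset
  have hsub : T.edgeFinset ⊆ G.edgeFinset := SimpleGraph.edgeFinset_mono hTG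
  have hNcard : N.card + E.card = G.edgeSet.ncard := by
    have h1 : G.edgeSet.ncard = G.edgeFinset.card := by
      rw [← SimpleGraph.coe_edgeFinset, Set.ncard_coe_finset]
    rw [h1]
    exact Finset.card_sdiff_add_card_eq_card hsub
  have hNmem : ∀ e, e ∈ N ↔ e ∈ G.edgeSet \ T.edgeSet := by
    intro e
    change e ∈ G.edgeFinset \ T.edgeFinset ↔ _
    simp
  -- end edges
  have hex : ∀ e : Sym2 V, ∃ A : Finset (Sym2 V), e ∈ N → ∃ x y x1 y1, Good T e x y x1 y1 ∧
      A = {s(x, x1), s(y, y1)} := by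
    intro e
    by_cases he : e ∈ N
    · induction e with
      | h x y =>
        have h2 := (hNmem _).1 he
        have hG : G.Adj x y := h2.1
        have hnT : ¬ T.Adj x y := h2.2
        obtain ⟨x1, y1, hg⟩ := exists_good T hT.connected x y hG.ne hnT
        exact ⟨{s(x, x1), s(y, y1)}, fun _ => ⟨x, y, x1, y1, hg, rfl⟩⟩
    · exact ⟨∅, fun h => absurd h he⟩
  choose A hA using hex
  have hA2 : ∀ e ∈ N, (A e).card = 2 := by
    intro e he
    obtain ⟨x, y, x1, y1, hg, hAe⟩ := hA e he
    rw [hAe]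
    exact Finset.card_pair (good_ne hg)
  have hAE : ∀ e ∈ N, A e ⊆ E := by
    intro e he f hf
    obtain ⟨x, y, x1, y1, hg, hAe⟩ := hA e he
    rw [hAe, Finset.mem_insert, Finset.mem_singleton] at hf
    rw [hE, SimpleGraph.mem_edgeFinset]
    rcases hf with rfl | rfl
    · exact hg.2.1
    · exact hg.2.2.1
  have hAC : ∀ e ∈ N, ∀ f ∈ A e, f ∈ treeCycle T e := by
    intro e he f hf
    obtain ⟨x, y, x1, y1, hg, hAe⟩ := hA e he
    rw [hAe, Finset.mem_insert, Finset.mem_singleton] at hf
    rcases hf with rfl | rfl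
    · exact hg.2.2.2.2.2.2.1
    · exact hg.2.2.2.2.2.2.2
  have hinj : ∀ e ∈ N, ∀ e' ∈ N, A e = A e' → e = e' := by
    intro e he e' he' heq
    obtain ⟨x, y, x1, y1, hg, hAe⟩ := hA e he
    obtain ⟨x', y', x1', y1', hg', hAe'⟩ := hA e' he'
    rw [hAe, hAe'] at heq
    exact good_unique hg hg' heq
  have hint : ∀ e ∈ N, ∀ e' ∈ N, e ≠ e' → (A e ∩ A e').card ≤ 1 := by
    intro e he e' he' hne
    by_contra hcon
    apply hne
    apply hinj e he e' he'
    have h1 : A e ∩ A e' = A e :=
      Finset.eq_of_subset_of_card_le Finset.inter_subset_left (by rw [hA2 e he]; omega)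
    have h2 : A e ∩ A e' = A e' :=
      Finset.eq_of_subset_of_card_le Finset.inter_subset_right (by rw [hA2 e' he']; omega)
    rw [← h1, h2]
  -- counting
  let c : Sym2 V → ℕ := fun f => (N.filter fun e => f ∈ A e).card
  have hsum1 : ∑ f ∈ E, c f = 2 * N.card := by
    simp only [c, Finset.card_filter]
    rw [Finset.sum_comm]
    have : ∀ e ∈ N, ∑ f ∈ E, (if f ∈ A e then 1 else 0) = 2 := by
      intro e he
      rw [← Finset.card_filter, Finset.filter_mem_eq_inter, Finset.inter_eq_right.2 (hAE e he)]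
      exact hA2 e he
    rw [Finset.sum_congr rfl this]
    simp [mul_comm]
  have hsum2 : ∑ f ∈ E, c f * c f = ∑ e ∈ N, ∑ e' ∈ N, (A e ∩ A e').card := by
    have h1 : ∀ f, c f * c f = ∑ e ∈ N, ∑ e' ∈ N,
        (if f ∈ A e then 1 else 0) * (if f ∈ A e' then 1 else 0) := by
      intro f
      simp only [c, Finset.card_filter]
      rw [Finset.sum_mul_sum]
    rw [Finset.sum_congr rfl fun f _ => h1 f]
    rw [Finset.sum_comm]
    apply Finset.sum_congr rfl
    intro e he
    rw [Finset.sum_comm]
    apply Finset.sum_congr rfl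
    intro e' he'
    have h2 : ∀ f, (if f ∈ A e then 1 else 0) * (if f ∈ A e' then 1 else 0) =
        if f ∈ A e ∩ A e' then 1 else 0 := by
      intro f
      by_cases h3 : f ∈ A e <;> by_cases h4 : f ∈ A e' <;> simp [h3, h4]
    rw [Finset.sum_congr rfl fun f _ => h2 f, ← Finset.card_filter,
      Finset.filter_mem_eq_inter, Finset.inter_eq_right.2]
    exact Finset.inter_subset_left.trans (hAE e he)
  have hcross : ∀ e ∈ N, ∀ e' ∈ N, (A e ∩ A e').card ≤
      (if (crossGraph G T).Adj e e' then 1 else 0) + (if e = e' then 2 else 0) := by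
    intro e he e' he'
    by_cases hee : e = e'
    · subst hee
      rw [Finset.inter_self, hA2 e he]
      simp
    · rw [if_neg hee, add_zero]
      rcases Finset.eq_empty_or_nonempty (A e ∩ A e') with h0 | ⟨f, hf⟩
      · rw [h0]; simp
      · have hadj : (crossGraph G T).Adj e e' := by
          refine ⟨hee, (hNmem e).1 he, (hNmem e').1 he', f, ?_, ?_⟩
          · exact hAC e he f (Finset.mem_inter.1 hf).1
          · exact hAC e' he' f (Finset.mem_inter.1 hf).2
        rw [if_pos hadj]
        exact hint e he e' he' hee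
  have hle : ∑ f ∈ E, c f * c f ≤ 2 * interTree G T + 2 * N.card := by
    rw [hsum2]
    calc ∑ e ∈ N, ∑ e' ∈ N, (A e ∩ A e').card
        ≤ ∑ e ∈ N, ∑ e' ∈ N, ((if (crossGraph G T).Adj e e' then 1 else 0) +
            (if e = e' then 2 else 0)) :=
          Finset.sum_le_sum fun e he => Finset.sum_le_sum fun e' he' => hcross e he e' he'
      _ = ∑ e ∈ N, ∑ e' ∈ N, (if (crossGraph G T).Adj e e' then 1 else 0) + 2 * N.card := by
          simp only [Finset.sum_add_distrib]
          congr 1
          simp [mul_comm]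
      _ ≤ 2 * interTree G T + 2 * N.card := by
          apply Nat.add_le_add_right
          unfold interTree
          rw [two_mul_edges, Finset.card_filter, Fintype.sum_prod_type]
          calc ∑ e ∈ N, ∑ e' ∈ N, (if (crossGraph G T).Adj e e' then 1 else 0)
              ≤ ∑ e ∈ N, ∑ e', (if (crossGraph G T).Adj e e' then 1 else 0) :=
                Finset.sum_le_sum fun e _ =>
                  Finset.sum_le_sum_of_subset (Finset.subset_univ _)
            _ ≤ ∑ e, ∑ e', (if (crossGraph G T).Adj e e' then 1 else 0) :=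
                Finset.sum_le_sum_of_subset (Finset.subset_univ _)
  -- convexity
  have hconv : ∑ f ∈ E, ((2 * (q : ℤ) + 1) * (c f : ℤ) - q * (q + 1)) ≤
      ∑ f ∈ E, (c f : ℤ) * (c f : ℤ) := by
    apply Finset.sum_le_sum
    intro f _
    have : 0 ≤ ((c f : ℤ) - q) * ((c f : ℤ) - q - 1) := by
      rcases le_or_gt (c f : ℤ) q with h | h
      · exact mul_nonneg_of_nonpos_of_nonpos (by linarith) (by linarith)
      · exact mul_nonneg (by linarith) (by omega)
    nlinarith
  rw [Finset.sum_sub_distrib, ← Finset.mul_sum, Finset.sum_const, nsmul_eq_mul] at hconv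
  have hs1 : ∑ f ∈ E, (c f : ℤ) = 2 * (N.card : ℤ) := by exact_mod_cast hsum1
  have hs2 : ∑ f ∈ E, (c f : ℤ) * (c f : ℤ) ≤ 2 * (interTree G T : ℤ) + 2 * (N.card : ℤ) := by
    exact_mod_cast hle
  rw [hs1] at hconv
  have e1 : (E.card : ℤ) = (Fintype.card V : ℤ) - 1 := by
    have : ((E.card : ℤ)) + 1 = (Fintype.card V : ℤ) := by exact_mod_cast hEcard
    linarith
  have e2 : (N.card : ℤ) = (G.edgeSet.ncard : ℤ) + 1 - (Fintype.card V : ℤ) := by
    have : ((N.card : ℤ)) + (E.card : ℤ) = (G.edgeSet.ncard : ℤ) := by exact_mod_cast hNcard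
    linarith
  rw [e1, e2] at hconv
  rw [e2] at hs2
  nlinarith

/-- The tree-cycles of the star tree. -/
theorem star_cycle {V : Type} (u x y : V) (hx : x ≠ u) (hy : y ≠ u) (hxy : x ≠ y)
    (f : Sym2 V) (hf : f ∈ treeCycle (SimpleGraph.starGraph u) s(x, y)) :
    f = s(x, y) ∨ f = s(u, x) ∨ f = s(u, y) := by
  classical
  rcases hf with hf | ⟨a, b, p, he, hp, hf⟩
  · exact Or.inl hf
  · have hab : (a = x ∧ b = y) ∨ (a = y ∧ b = x) := by
      rcases Sym2.eq_iff.1 he with ⟨h1, h2⟩ | ⟨h1, h2⟩
      · exact Or.inl ⟨h1.symm, h2.symm⟩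
      · exact Or.inr ⟨h2.symm, h1.symm⟩
    have hau : a ≠ u := by rcases hab with h | h <;> rw [h.1] <;> assumption
    have hbu : b ≠ u := by rcases hab with h | h <;> rw [h.2] <;> assumption
    have hab' : a ≠ b := by
      rcases hab with h | h <;> rw [h.1, h.2]
      · exact hxy
      · exact hxy.symm
    have h1 : (SimpleGraph.starGraph u).Adj a u := by
      rw [SimpleGraph.starGraph_adj]; exact ⟨hau, Or.inr rfl⟩
    have h2 : (SimpleGraph.starGraph u).Adj u b := by
      rw [SimpleGraph.starGraph_adj]; exact ⟨hbu.symm, Or.inl rfl⟩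
    let r : (SimpleGraph.starGraph u).Walk a b := .cons h1 (.cons h2 .nil)
    have hr : r.IsPath := by
      simp [r, SimpleGraph.Walk.cons_isPath_iff, hau, hab', hbu.symm]
    have hpr : p = r := by
      have := (SimpleGraph.isAcyclic_starGraph u).subsingleton_path a b
      have h3 := Subsingleton.elim (⟨p, hp⟩ : (SimpleGraph.starGraph u).Path a b) ⟨r, hr⟩
      exact congrArg Subtype.val h3
    rw [hpr] at hf
    simp [r] at hf
    rcases hab with ⟨ha, hb⟩ | ⟨ha, hb⟩
    · rw [ha, hb] at hf
      rcases hf with hf | hf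
      · right; left; rw [hf, Sym2.eq_swap]
      · right; right; exact hf
    · rw [ha, hb] at hf
      rcases hf with hf | hf
      · right; right; rw [hf, Sym2.eq_swap]
      · right; left; exact hf

/-- Upper bound for the star tree. -/
theorem star_upper {V : Type} [Fintype V] (G : SimpleGraph V) [DecidableRel G.Adj]
    [DecidableEq V] (u : V) (hu : ∀ v, v ≠ u → G.Adj u v) :
    2 * interTree G (SimpleGraph.starGraph u) ≤
      ∑ v ∈ univ.erase u, (G.degree v - 1) * (G.degree v - 2) := by
  classical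
  unfold interTree
  rw [two_mul_edges]
  -- the triples (v, w, w')
  let B : V → Finset (V × V) := fun v => ((G.neighborFinset v).erase u).offDiag
  have hB : ∀ v, v ≠ u → (B v).card = (G.degree v - 1) * (G.degree v - 2) := by
    intro v hv
    simp only [B]
    rw [Finset.offDiag_card, Finset.card_erase_of_mem (by
      rw [SimpleGraph.mem_neighborFinset]; exact (hu v hv).symm),
      SimpleGraph.card_neighborFinset_eq_degree]
    rcases Nat.lt_or_ge (G.degree v) 2 with h | h
    · have : G.degree v - 1 = 0 := by omega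
      rw [this]; simp
    · obtain ⟨k, hk⟩ := Nat.exists_eq_add_of_le h
      rw [hk]
      have e1 : 2 + k - 1 = k + 1 := by omega
      have e2 : 2 + k - 2 = k := by omega
      rw [e1, e2, Nat.mul_succ]
      omega
  rw [← Finset.sum_congr rfl (fun v hv => hB v (Finset.ne_of_mem_erase hv)),
    ← Finset.card_sigma]
  -- map (v, (w, w')) ↦ (s(v,w), s(v,w'))
  let F : (Σ _ : V, V × V) → Sym2 V × Sym2 V := fun t => (s(t.1, t.2.1), s(t.1, t.2.2))
  have hsub : (univ.filter fun p : Sym2 V × Sym2 V =>
      (crossGraph G (SimpleGraph.starGraph u)).Adj p.1 p.2) ⊆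
      ((univ.erase u).sigma B).image F := by
    rintro ⟨e, e'⟩ h
    rw [Finset.mem_filter] at h
    obtain ⟨-, hne, he, he', f, hf, hf'⟩ := h
    simp only at hne he he' hf hf'
    induction e with
    | h x y =>
    induction e' with
    | h x' y' =>
      have hG : G.Adj x y := he.1
      have hG' : G.Adj x' y' := he'.1
      have hn : ¬ (SimpleGraph.starGraph u).Adj x y := he.2
      have hn' : ¬ (SimpleGraph.starGraph u).Adj x' y' := he'.2
      rw [SimpleGraph.starGraph_adj] at hn hn'
      have hx : x ≠ u := fun h => hn ⟨hG.ne, Or.inl h⟩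
      have hy : y ≠ u := fun h => hn ⟨hG.ne, Or.inr h⟩
      have hx' : x' ≠ u := fun h => hn' ⟨hG'.ne, Or.inl h⟩
      have hy' : y' ≠ u := fun h => hn' ⟨hG'.ne, Or.inr h⟩
      have k1 := star_cycle u x y hx hy hG.ne f hf
      have k2 := star_cycle u x' y' hx' hy' hG'.ne f hf'
      -- find the common vertex
      have common : (x = x' ∨ x = y' ∨ y = x' ∨ y = y') := by
        by_contra hcon
        push Not at hcon
        obtain ⟨c1, c2, c3, c4⟩ := hcon
        rcases k1 with k1 | k1 | k1 <;> rcases k2 with k2 | k2 | k2 <;>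
          rw [k1] at k2 <;> rcases Sym2.eq_iff.1 k2 with ⟨g1, g2⟩ | ⟨g1, g2⟩ <;>
          first
            | exact c1 g1 | exact c2 g1 | exact c3 g1 | exact c4 g1
            | exact c1 g2 | exact c2 g2 | exact c3 g2 | exact c4 g2
            | exact hx g1 | exact hy g1 | exact hx' g1.symm | exact hy' g1.symm
      have mk : ∀ v w w' : V, v ≠ u → w ≠ u → w' ≠ u → G.Adj v w → G.Adj v w' →
          s(v, w) ≠ s(v, w') → (s(v, w), s(v, w')) ∈ ((univ.erase u).sigma B).image F := by
        intro v w w' hv hw hw' a1 a2 hne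
        rw [Finset.mem_image]
        refine ⟨⟨v, w, w'⟩, ?_, rfl⟩
        rw [Finset.mem_sigma]
        refine ⟨Finset.mem_erase.2 ⟨hv, Finset.mem_univ _⟩, ?_⟩
        simp only [B]
        rw [Finset.mem_offDiag]
        refine ⟨Finset.mem_erase.2 ⟨hw, ?_⟩, Finset.mem_erase.2 ⟨hw', ?_⟩, ?_⟩
        · rw [SimpleGraph.mem_neighborFinset]; exact a1
        · rw [SimpleGraph.mem_neighborFinset]; exact a2
        · intro h
          exact hne (by rw [show w = w' from h])
      rcases common with h | h | h | h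
      · subst h
        exact mk x y y' hx hy hy' hG hG' hne
      · subst h
        rw [Sym2.eq_swap (a := x') (b := x)] at hne ⊢
        exact mk x y x' hx hy hx' hG hG'.symm hne
      · subst h
        rw [Sym2.eq_swap (a := x) (b := y)] at hne ⊢
        exact mk y x y' hy hx hy' hG.symm hG' hne
      · subst h
        rw [Sym2.eq_swap (a := x) (b := y), Sym2.eq_swap (a := x') (b := y)] at hne ⊢
        exact mk y x x' hy hx hx' hG.symm hG'.symm hne
  exact (Finset.card_le_card hsub).trans Finset.card_image_le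

/-- If `G` is a `ν`-regular graph and `H` is a connected graph with the same numbers of vertices
and edges, then the intersection number of `G` is at most that of `H`. -/
theorem result (V W : Type) [Fintype V] [Fintype W] (G : SimpleGraph V) (H : SimpleGraph W)
    (hn : 2 ≤ Fintype.card V) (hG : IsNuRegular G) (hH : H.Connected)
    (hcard : Fintype.card W = Fintype.card V) (hedge : H.edgeSet.ncard = G.edgeSet.ncard) :
    inter G ≤ inter H := by
  classical
  obtain ⟨u, hu, hdeg⟩ := hG
  generalize 2 * cyclo G / (Fintype.card V - 1) = q at hdeg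
  -- lower bound for H
  have hne : {k | ∃ T : SimpleGraph W, T ≤ H ∧ T.IsTree ∧ interTree H T = k}.Nonempty := by
    obtain ⟨T, hTH, hT⟩ := hH.exists_isTree_le
    exact ⟨_, T, hTH, hT, rfl⟩
  obtain ⟨T, hTH, hT, hTk⟩ := Nat.sInf_mem hne
  have hlow := lower H T hT hTH q
  rw [hTk] at hlow
  -- star tree of G
  have hstar : SimpleGraph.starGraph u ≤ G := by
    intro a b hab
    rw [SimpleGraph.starGraph_adj] at hab
    rcases hab with ⟨hne, h | h⟩
    · subst h; exact hu b hne.symm
    · subst h; exact (hu a hne).symm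
  have hup : inter G ≤ interTree G (SimpleGraph.starGraph u) :=
    Nat.sInf_le ⟨_, hstar, SimpleGraph.isTree_starGraph u, rfl⟩
  have hup2 := star_upper G u hu
  have hdeg' : ∀ v, v ≠ u → G.degree v = q + 1 ∨ G.degree v = q + 2 := by
    intro v hv
    have h1 : (G.neighborSet v).ncard = G.degree v := by
      rw [Set.ncard_eq_toFinset_card', Set.toFinset_card]
      exact SimpleGraph.card_neighborSet_eq_degree G v
    have := hdeg v hv
    rw [h1] at this
    exact this
  have hterm : ∀ v ∈ univ.erase u, (((G.degree v - 1) * (G.degree v - 2) : ℕ) : ℤ) =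
      2 * (q : ℤ) * ((G.degree v : ℤ) - 1) - q * (q + 1) := by
    intro v hv
    rcases hdeg' v (Finset.ne_of_mem_erase hv) with h | h
    · rw [h]
      have e1 : q + 1 - 1 = q := by omega
      have e2 : q + 1 - 2 = q - 1 := by omega
      rw [e1, e2]
      rcases Nat.eq_zero_or_pos q with h0 | h0
      · rw [h0]; simp
      · push_cast [Nat.cast_sub h0]
        ring
    · rw [h]
      have e1 : q + 2 - 1 = q + 1 := by omega
      have e2 : q + 2 - 2 = q := by omega
      rw [e1, e2]
      push_cast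
      ring
  have hup3 : 2 * (interTree G (SimpleGraph.starGraph u) : ℤ) ≤
      ∑ v ∈ univ.erase u, (2 * (q : ℤ) * ((G.degree v : ℤ) - 1) - q * (q + 1)) := by
    rw [← Finset.sum_congr rfl hterm]
    exact_mod_cast hup2
  have hdu : G.degree u = Fintype.card V - 1 := by
    rw [← SimpleGraph.card_neighborFinset_eq_degree]
    have : G.neighborFinset u = univ.erase u := by
      ext v
      rw [SimpleGraph.mem_neighborFinset, Finset.mem_erase]
      exact ⟨fun h => ⟨h.ne', Finset.mem_univ _⟩, fun h => hu v h.1⟩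
    rw [this, Finset.card_erase_of_mem (Finset.mem_univ _), Finset.card_univ]
  have hsumdeg : ∑ v ∈ univ.erase u, (G.degree v : ℤ) =
      2 * (G.edgeSet.ncard : ℤ) - ((Fintype.card V : ℤ) - 1) := by
    have h1 := G.sum_degrees_eq_twice_card_edges
    rw [← Finset.add_sum_erase _ _ (Finset.mem_univ u), hdu] at h1
    have h2 : G.edgeSet.ncard = G.edgeFinset.card := by
      rw [← SimpleGraph.coe_edgeFinset, Set.ncard_coe_finset]
    have h3 : ((Fintype.card V - 1 : ℕ) : ℤ) = (Fintype.card V : ℤ) - 1 := by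
      rw [Nat.cast_sub (by omega)]; simp
    have h4 : (((Fintype.card V - 1 : ℕ) : ℤ) + ∑ v ∈ univ.erase u, (G.degree v : ℤ)) =
        2 * (G.edgeFinset.card : ℤ) := by exact_mod_cast h1
    rw [h2]
    linarith
  have hce : ((univ.erase u).card : ℤ) = (Fintype.card V : ℤ) - 1 := by
    rw [Finset.card_erase_of_mem (Finset.mem_univ _), Finset.card_univ,
      Nat.cast_sub (by omega)]
    simp
  rw [Finset.sum_sub_distrib, ← Finset.mul_sum, Finset.sum_sub_distrib, hsumdeg,
    Finset.sum_const, Finset.sum_const, nsmul_eq_mul, nsmul_eq_mul, hce] at hup3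
  rw [hcard, hedge] at hlow
  have hfin : 2 * (inter G : ℤ) ≤ 2 * (inter H : ℤ) := by
    have h1 : (inter G : ℤ) ≤ (interTree G (SimpleGraph.starGraph u) : ℤ) := by
      exact_mod_cast hup
    have h2 : (inter H : ℤ) = ((sInf {k | ∃ T : SimpleGraph W, T ≤ H ∧ T.IsTree ∧
      interTree H T = k} : ℕ) : ℤ) := rfl
    rw [h2]
    nlinarith
  have : (inter G : ℤ) ≤ (inter H : ℤ) := by linarith
  exact_mod_cast this

end Pool.Agent.Results.MP_648063_co.NuRegular
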